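import Pool.Agent.Helper89.TwoBridge.Final

/-!
The absolute values of the coefficients of the Alexander polynomial of a two-bridge knot are first
concave and then convex.
-/

set_option autoImplicit false

open Polynomial Pool.Agent.Helper89.TwoBridge

/-- Let `K` be the two-bridge knot of genus `n` with the even continued fraction expansion given by
nonzero integers `c`, and let `a 0, …, a n` be the absolute values of the coefficients of its Alexander
polynomial, `a 0` the central one.  They are positive, the signs alternate, and there is `k ≤ n` such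
that `(a 0, …, a k)` is concave and `(a k, …, a n)` is convex. -/
theorem Pool.Agent.Results.MP_7cfe9c_gt.AlexanderConcaveConvex.result
    (n : ℕ) (c : Fin (2 * n) → ℤ) (hc : ∀ i, c i ≠ 0) :
    ∃ (a : ℕ → ℤ) (ε : ℤ) (k : ℕ), (ε = 1 ∨ ε = -1) ∧ (∀ i ≤ n, 0 < a i) ∧
      (∀ i ≤ n, (alexander (seifert c)).coeff (n + i) = ε * (-1) ^ i * a i ∧
        (alexander (seifert c)).coeff (n - i) = ε * (-1) ^ i * a i) ∧
      (alexander (seifert c)).natDegree = 2 * n ∧ k ≤ n ∧
      (∀ i, 1 ≤ i → i + 1 ≤ k → a (i - 1) + a (i + 1) ≤ 2 * a i) ∧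
      (∀ i, k + 1 ≤ i → i + 1 ≤ n → 2 * a i ≤ a (i - 1) + a (i + 1)) :=
  knot_concave_convex n c hc
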