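import Pool.Agent.Helper89.TwoBridge.Conway

/-!
The coefficients of the Conway polynomial of a two-bridge link in the basis of Fibonacci polynomials
are nonnegative, log-concave and trapezoidal.
-/

set_option autoImplicit false

open Polynomial Pool.Agent.Helper89.TwoBridge

/-- For all nonzero integers `c 0, …, c (m - 1)`, the Conway polynomial of the two-bridge link with the
even continued fraction expansion given by `c` is `± ∑ (-1) ^ i α i f (m + 1 - 2 i)`, the `α i` being
nonnegative with `α 0 > 0`, increasing up to some `k` and decreasing afterwards, and log-concave. -/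
theorem Pool.Agent.Results.MP_7cfe9c_gt.ConwayTrapezoidal.result
    (m : ℕ) (c : Fin m → ℤ) (hc : ∀ i, c i ≠ 0) :
    ∃ (α : ℕ → ℤ) (ε : ℤ) (k : ℕ), (ε = 1 ∨ ε = -1) ∧ 0 < α 0 ∧ (∀ i, 0 ≤ α i) ∧
      conway c = C ε * ∑ i ∈ Finset.range (m / 2 + 1), (-1) ^ i * (C (α i) * fibPoly (m + 1 - 2 * i)) ∧
      k ≤ m / 2 ∧ (∀ i, i < k → α i ≤ α (i + 1)) ∧ (∀ i, k ≤ i → i < m / 2 → α (i + 1) ≤ α i) ∧
      (∀ i j, i ≤ j → j < m / 2 → α i * α (j + 1) ≤ α (i + 1) * α j) :=
  conway_trapezoidal m c hc
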