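import Pool.Agent.Helper89.TwoBridge.Final

/-!
The statement with the order of the two words exchanged (first convex, then concave), which is how the
problem file words it, fails for the two-bridge knot `C(2, 2, 2, 2, 2, 2)`.
-/

set_option autoImplicit false

open Polynomial Pool.Agent.Helper89.TwoBridge

/-- There is a two-bridge knot of genus three for which no `k ≤ 3` makes `(a 0, …, a k)` convex and
`(a k, …, a 3)` concave, where the `a i` are the absolute values of the coefficients of the Alexander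
polynomial, `a 0` being the central one. -/
theorem Pool.Agent.Results.MP_7cfe9c_gt.LiteralOrderFails.result :
    ∃ c : Fin (2 * 3) → ℤ, (∀ i, c i ≠ 0) ∧
      (alexander (seifert c)).natDegree = 2 * 3 ∧
      ∃ (a : ℕ → ℤ) (ε : ℤ), (ε = 1 ∨ ε = -1) ∧ (∀ i ≤ 3, 0 < a i) ∧
        (∀ i ≤ 3, (alexander (seifert c)).coeff (3 + i) = ε * (-1) ^ i * a i ∧
          (alexander (seifert c)).coeff (3 - i) = ε * (-1) ^ i * a i) ∧
        ∀ k ≤ 3, ¬ ((∀ i, 1 ≤ i → i + 1 ≤ k → 2 * a i ≤ a (i - 1) + a (i + 1)) ∧
          (∀ i, k + 1 ≤ i → i + 1 ≤ 3 → a (i - 1) + a (i + 1) ≤ 2 * a i)) := by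
  have hdet : ∀ i : ℕ, (alexander (seifert fun i : Fin (2 * 3) => (-1 : ℤ) ^ (i : ℕ))).coeff i =
      (-1) ^ i * ecoef (2 * 3) (fun i => (-1) ^ i) i := by
    intro i
    rw [alexander_eq (2 * 3) (fun i => (-1 : ℤ) ^ i), coeff_det]
  have hne : ∀ i : Fin (2 * 3), (fun i : Fin (2 * 3) => (-1 : ℤ) ^ (i : ℕ)) i ≠ 0 := by
    intro i
    exact pow_ne_zero _ (by norm_num)
  obtain ⟨_, _, _, _, _, _, hdeg, _⟩ := knot_concave_convex 3 _ hne
  refine ⟨fun i => (-1) ^ (i : ℕ), hne, hdeg, fun i => if i = 0 then 63 else if i = 1 then 41 else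
    if i = 2 then 11 else 1, 1, Or.inl rfl, ?_, ?_, ?_⟩
  · intro i hi
    interval_cases i <;> norm_num
  · intro i hi
    rw [hdet, hdet]
    interval_cases i <;> decide
  · intro k hk
    rintro ⟨h1, h2⟩
    interval_cases k
    · have := h2 2 (by norm_num) (by norm_num)
      norm_num at this
    · have := h2 2 (by norm_num) (by norm_num)
      norm_num at this
    · have := h1 1 (by norm_num) (by norm_num)
      norm_num at this
    · have := h1 1 (by norm_num) (by norm_num)
      norm_num at this
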